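import Pool.Agent.X166.RotorC

/-!
# Rotors in a regular triangular prism are balls
-/

open MeasureTheory Metric

namespace Pool.Agent.Results.MP_c2e62a_gt.OnlyBalls

/-- Euclidean 3-space. -/
abbrev E3 : Type := EuclideanSpace ℝ (Fin 3)

/-- The Euclidean plane, identified with the plane `z = 0`. -/
abbrev E2 : Type := EuclideanSpace ℝ (Fin 2)

/-- Orthogonal projection to the plane `z = 0`. -/
def proj (x : E3) : E2 := !₂[x 0, x 1]

/-- `V 0, V 1, V 2` are the vertices of an equilateral triangle. -/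
def IsEquilateral (V : Fin 3 → E2) : Prop :=
  ∃ l : ℝ, 0 < l ∧ ∀ i j, i ≠ j → dist (V i) (V j) = l

/-- The infinite prism over the triangle with vertices `V 0, V 1, V 2`. -/
def prism (V : Fin 3 → E2) : Set E3 := {x | proj x ∈ convexHull ℝ (Set.range V)}

/-- The face of the prism over the edge of the triangle opposite to the vertex `V i`. -/
def face (V : Fin 3 → E2) (i : Fin 3) : Set E3 :=
  {x | proj x ∈ segment ℝ (V (i + 1)) (V (i + 2))}

/-- `K` is a rotor in the prism: for every rotation `ρ` (linear isometry of determinant one) some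
translate of `ρ K` lies in the prism and meets each of its three faces. -/
def IsRotor (V : Fin 3 → E2) (K : Set E3) : Prop :=
  ∀ ρ : E3 ≃ₗᵢ[ℝ] E3, LinearMap.det (ρ.toLinearEquiv : E3 →ₗ[ℝ] E3) = 1 →
    ∃ t : E3, (fun x => ρ x + t) '' K ⊆ prism V ∧
      ∀ i, ((fun x => ρ x + t) '' K ∩ face V i).Nonempty

/-! ### Rotations between orthonormal pairs -/

theorem det_equiv (B B' : OrthonormalBasis (Fin 3) ℝ E3) :
    LinearMap.det ((B.equiv B' (Equiv.refl _)).toLinearEquiv : E3 →ₗ[ℝ] E3)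
      = B.toBasis.det B' := by
  have h := B.toBasis.det_comp ((B.equiv B' (Equiv.refl _)).toLinearEquiv : E3 →ₗ[ℝ] E3) B.toBasis
  rw [B.toBasis.det_self, mul_one] at h
  rw [← h]
  congr 1
  ext i : 1
  simp

theorem exists_rotation {a b a' b' : E3} (ha : ‖a‖ = 1) (hb : ‖b‖ = 1) (hab : inner ℝ a b = 0)
    (ha' : ‖a'‖ = 1) (hb' : ‖b'‖ = 1) (hab' : inner ℝ a' b' = 0) :
    ∃ ρ : E3 ≃ₗᵢ[ℝ] E3, LinearMap.det (ρ.toLinearEquiv : E3 →ₗ[ℝ] E3) = 1 ∧
      ρ a = a' ∧ ρ b = b' := by
  have ext2 : ∀ {p q : E3}, ‖p‖ = 1 → ‖q‖ = 1 → inner ℝ p q = 0 →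
      ∃ B : OrthonormalBasis (Fin 3) ℝ E3, B 0 = p ∧ B 1 = q := by
    intro p q hp hq hpq
    obtain ⟨B, hB⟩ := Orthonormal.exists_orthonormalBasis_extension_of_card_eq
      (ι := Fin 3) (𝕜 := ℝ) (E := E3) (by simp) (v := ![p, q, 0]) (s := {0, 1})
      (by
        rw [orthonormal_iff_ite]
        rintro ⟨i, hi⟩ ⟨j, hj⟩
        have hqp : inner ℝ q p = (0 : ℝ) := by rw [real_inner_comm]; exact hpq
        rcases hi with rfl | rfl <;> rcases hj with rfl | rfl <;>
          simp [hp, hq, hpq, hqp, Subtype.ext_iff])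
    exact ⟨B, hB 0 (by simp), hB 1 (by simp)⟩
  obtain ⟨B, hB0, hB1⟩ := ext2 ha hb hab
  obtain ⟨B', hB0', hB1'⟩ := ext2 ha' hb' hab'
  have hval : ∀ B₁ : OrthonormalBasis (Fin 3) ℝ E3, ∀ i, (B.equiv B₁ (Equiv.refl _)) (B i) = B₁ i :=
    fun B₁ i => by simp
  rcases B.det_to_matrix_orthonormalBasis_real B' with h | h
  · refine ⟨B.equiv B' (Equiv.refl _), ?_, ?_, ?_⟩
    · rw [det_equiv]; exact h
    · rw [← hB0, hval, hB0']
    · rw [← hB1, hval, hB1']
  · obtain ⟨B₂, hB₂⟩ := Orthonormal.exists_orthonormalBasis_extension_of_card_eq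
      (ι := Fin 3) (𝕜 := ℝ) (E := E3) (by simp) (v := Function.update B' 2 (- B' 2))
      (s := Set.univ)
      (by
        rw [orthonormal_iff_ite]
        rintro ⟨i, -⟩ ⟨j, -⟩
        have h0 := orthonormal_iff_ite.1 B'.orthonormal
        fin_cases i <;> fin_cases j <;>
          simp [Function.update, h0])
    have hB₂' : (B₂ : Fin 3 → E3) = Function.update B' 2 (- B' 2) :=
      funext fun i => hB₂ i (Set.mem_univ i)
    refine ⟨B.equiv B₂ (Equiv.refl _), ?_, ?_, ?_⟩
    · rw [det_equiv, hB₂']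
      have h1 := (B.toBasis.det).toMultilinearMap.map_update_neg (B' : Fin 3 → E3) 2 (B' 2)
      have h2 : B.toBasis.det (Function.update (B' : Fin 3 → E3) 2 (- B' 2))
          = - B.toBasis.det (Function.update (B' : Fin 3 → E3) 2 (B' 2)) := h1
      rw [h2, Function.update_eq_self, h, neg_neg]
    · rw [← hB0, hval, hB₂', Function.update_of_ne (by decide), hB0']
    · rw [← hB1, hval, hB₂', Function.update_of_ne (by decide), hB1']

/-- A unit triple with sum zero comes from an orthonormal pair. -/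
theorem triple_frame {u v w : E3} (hu : ‖u‖ = 1) (hv : ‖v‖ = 1) (hw : ‖w‖ = 1)
    (h : u + v + w = 0) : ‖(2 / Real.sqrt 3) • (v + (1 / 2 : ℝ) • u)‖ = 1 ∧
      inner ℝ u ((2 / Real.sqrt 3) • (v + (1 / 2 : ℝ) • u)) = 0 := by
  have huu : inner ℝ u u = (1 : ℝ) := by rw [real_inner_self_eq_norm_sq, hu]; norm_num
  have hvv : inner ℝ v v = (1 : ℝ) := by rw [real_inner_self_eq_norm_sq, hv]; norm_num
  have hww : inner ℝ w w = (1 : ℝ) := by rw [real_inner_self_eq_norm_sq, hw]; norm_num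
  have hw' : w = -(u + v) := by
    rw [eq_neg_iff_add_eq_zero, ← h]; abel
  have huv : inner ℝ u v = -(1 / 2 : ℝ) := by
    rw [hw', inner_neg_neg, inner_add_left, inner_add_right, inner_add_right, huu, hvv,
      real_inner_comm u v] at hww
    linarith
  have h3 : (0 : ℝ) < Real.sqrt 3 := Real.sqrt_pos.2 (by norm_num)
  constructor
  · have h1 : ‖v + (1 / 2 : ℝ) • u‖ ^ 2 = 3 / 4 := by
      rw [← real_inner_self_eq_norm_sq, inner_add_left, inner_add_right, inner_add_right,
        real_inner_smul_left, real_inner_smul_left, real_inner_smul_right, real_inner_smul_right,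
        huu, hvv, real_inner_comm u v, huv]
      norm_num
    have h2 : ‖v + (1 / 2 : ℝ) • u‖ = Real.sqrt 3 / 2 := by
      have : ‖v + (1 / 2 : ℝ) • u‖ = Real.sqrt (3 / 4) := by
        rw [← h1, Real.sqrt_sq (norm_nonneg _)]
      rw [this, Real.sqrt_div (by norm_num)]
      congr 1
      rw [show (4 : ℝ) = 2 ^ 2 by norm_num, Real.sqrt_sq (by norm_num)]
    rw [norm_smul, h2, Real.norm_of_nonneg (by positivity)]
    field_simp
  · rw [real_inner_smul_right, inner_add_right, real_inner_smul_right, huu, huv]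
    norm_num

theorem exists_rotation_triple {u v w u' v' w' : E3} (hu : ‖u‖ = 1) (hv : ‖v‖ = 1)
    (hw : ‖w‖ = 1) (h : u + v + w = 0) (hu' : ‖u'‖ = 1) (hv' : ‖v'‖ = 1)
    (hw' : ‖w'‖ = 1) (h' : u' + v' + w' = 0) :
    ∃ ρ : E3 ≃ₗᵢ[ℝ] E3, LinearMap.det (ρ.toLinearEquiv : E3 →ₗ[ℝ] E3) = 1 ∧
      ρ u = u' ∧ ρ v = v' ∧ ρ w = w' := by
  obtain ⟨a1, a2⟩ := triple_frame hu hv hw h
  obtain ⟨b1, b2⟩ := triple_frame hu' hv' hw' h'
  obtain ⟨ρ, hdet, h1, h2⟩ := exists_rotation hu a1 a2 hu' b1 b2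
  have h3 : (0 : ℝ) < Real.sqrt 3 := Real.sqrt_pos.2 (by norm_num)
  have e2 : ρ v = v' := by
    rw [map_smul, map_add, map_smul, h1] at h2
    have h4 := smul_right_injective E3 (show (2 / Real.sqrt 3 : ℝ) ≠ 0 by positivity) h2
    exact add_right_cancel h4
  refine ⟨ρ, hdet, h1, e2, ?_⟩
  have e3 : w = -(u + v) := by rw [eq_neg_iff_add_eq_zero, ← h]; abel
  have e4 : w' = -(u' + v') := by rw [eq_neg_iff_add_eq_zero, ← h']; abel
  rw [e3, e4, map_neg, map_add, h1, e2]

/-! ### The support function -/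

/-- Support function. -/
noncomputable def H (K : Set E3) (u : E3) : ℝ := sSup ((fun x => inner ℝ u x) '' K)

theorem le_H {K : Set E3} (hK : IsCompact K) (u : E3) {x : E3} (hx : x ∈ K) :
    inner ℝ u x ≤ H K u :=
  le_csSup (hK.image (by fun_prop)).bddAbove ⟨x, hx, rfl⟩

theorem H_le {K : Set E3} (hne : K.Nonempty) (u : E3) {c : ℝ} (h : ∀ x ∈ K, inner ℝ u x ≤ c) :
    H K u ≤ c :=
  csSup_le (hne.image _) (by rintro _ ⟨x, hx, rfl⟩; exact h x hx)

theorem H_smul {K : Set E3} (hK : IsCompact K) (hne : K.Nonempty) (r : ℝ) (u : E3) (hr : 0 ≤ r) :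
    H K (r • u) = r * H K u := by
  apply le_antisymm
  · refine H_le hne _ fun x hx => ?_
    rw [real_inner_smul_left]
    exact mul_le_mul_of_nonneg_left (le_H hK u hx) hr
  · rcases hr.eq_or_lt with h0 | h0
    · obtain ⟨x, hx⟩ := hne
      have := le_H hK (r • u) hx
      rw [← h0] at this ⊢
      simpa using this
    · rw [← le_div_iff₀' h0]
      refine H_le hne _ fun x hx => ?_
      rw [le_div_iff₀' h0, ← real_inner_smul_left]
      exact le_H hK _ hx

theorem H_continuous {K : Set E3} (hK : IsCompact K) (hne : K.Nonempty) : Continuous (H K) := by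
  obtain ⟨M, hM⟩ := hK.isBounded.exists_norm_le
  have hM0 : 0 ≤ M := by
    obtain ⟨x, hx⟩ := hne
    exact (norm_nonneg x).trans (hM x hx)
  have : LipschitzWith ⟨M, hM0⟩ (H K) := by
    apply LipschitzWith.of_le_add_mul
    intro u v
    refine H_le hne _ fun x hx => ?_
    have h1 : inner ℝ u x = inner ℝ v x + inner ℝ (u - v) x := by rw [inner_sub_left]; ring
    rw [h1]
    have h2 : inner ℝ (u - v) x ≤ ‖u - v‖ * ‖x‖ := real_inner_le_norm _ _
    have h3 : ‖u - v‖ * ‖x‖ ≤ M * dist u v := by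
      rw [dist_eq_norm, mul_comm]
      exact mul_le_mul_of_nonneg_right (hM x hx) (norm_nonneg _)
    have h4 := le_H hK v hx
    show inner ℝ v x + inner ℝ (u - v) x ≤ H K v + M * dist u v
    linarith
  exact this.continuous

/-! ### The normals of the prism -/

/-- Lift of a plane vector. -/
def lift (q : E2) : E3 := !₂[q 0, q 1, 0]

theorem inner_lift (x : E3) (q : E2) : inner ℝ x (lift q) = inner ℝ (proj x) q := by
  rw [EuclideanSpace.inner_eq_star_dotProduct, EuclideanSpace.inner_eq_star_dotProduct]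
  simp [lift, proj, dotProduct, Fin.sum_univ_three, Fin.sum_univ_two]

theorem norm_lift (q : E2) : ‖lift q‖ = ‖q‖ := by
  rw [EuclideanSpace.norm_eq, EuclideanSpace.norm_eq]
  simp [lift, Fin.sum_univ_three, Fin.sum_univ_two]

/-- Centroid minus vertex. -/
noncomputable def nrm (V : Fin 3 → E2) (i : Fin 3) : E2 :=
  (1 / 3 : ℝ) • ((V (i + 1) - V i) + (V (i + 2) - V i))

theorem nrm_sum (V : Fin 3 → E2) : lift (nrm V 0) + lift (nrm V 1) + lift (nrm V 2) = 0 := by
  ext i
  fin_cases i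
  · simp [lift, nrm]; ring
  · simp [lift, nrm]; ring
  · simp [lift]

section
variable {V : Fin 3 → E2} {l : ℝ} (hV : ∀ i j, i ≠ j → dist (V i) (V j) = l)
include hV

theorem inner_ab (i : Fin 3) : ‖V (i + 1) - V i‖ = l ∧ ‖V (i + 2) - V i‖ = l ∧
    inner ℝ (V (i + 1) - V i) (V (i + 2) - V i) = l ^ 2 / 2 := by
  have h1 : ‖V (i + 1) - V i‖ = l := by
    rw [← dist_eq_norm]; apply hV; fin_cases i <;> decide
  have h2 : ‖V (i + 2) - V i‖ = l := by
    rw [← dist_eq_norm]; apply hV; fin_cases i <;> decide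
  have h3 : ‖(V (i + 1) - V i) - (V (i + 2) - V i)‖ = l := by
    rw [sub_sub_sub_cancel_right, ← dist_eq_norm]; apply hV; fin_cases i <;> decide
  refine ⟨h1, h2, ?_⟩
  have h4 := @norm_sub_sq_real E2 _ _ (V (i + 1) - V i) (V (i + 2) - V i)
  rw [h1, h2, h3] at h4
  linarith

theorem norm_nrm (i : Fin 3) : ‖nrm V i‖ ^ 2 = l ^ 2 / 3 := by
  obtain ⟨h1, h2, h3⟩ := inner_ab hV i
  have h4 := @norm_add_sq_real E2 _ _ (V (i + 1) - V i) (V (i + 2) - V i)
  rw [h1, h2, h3] at h4
  rw [nrm, norm_smul, mul_pow, h4]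
  norm_num
  ring

theorem inner_vertex (i : Fin 3) :
    inner ℝ (V (i + 2)) (nrm V i) = inner ℝ (V (i + 1)) (nrm V i) ∧
    inner ℝ (V i) (nrm V i) ≤ inner ℝ (V (i + 1)) (nrm V i) := by
  obtain ⟨h1, h2, h3⟩ := inner_ab hV i
  have ha : inner ℝ (V (i + 1) - V i) (nrm V i) = l ^ 2 / 2 := by
    rw [nrm, real_inner_smul_right, inner_add_right, h3, real_inner_self_eq_norm_sq, h1]; ring
  have hb : inner ℝ (V (i + 2) - V i) (nrm V i) = l ^ 2 / 2 := by
    rw [nrm, real_inner_smul_right, inner_add_right, real_inner_self_eq_norm_sq, h2,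
      real_inner_comm, h3]; ring
  rw [inner_sub_left] at ha hb
  constructor
  · linarith
  · nlinarith [sq_nonneg l]

theorem le_of_mem_hull (i : Fin 3) {y : E2} (hy : y ∈ convexHull ℝ (Set.range V)) :
    inner ℝ y (nrm V i) ≤ inner ℝ (V (i + 1)) (nrm V i) := by
  obtain ⟨h1, h2⟩ := inner_vertex hV i
  have hconv : Convex ℝ {y : E2 | inner ℝ y (nrm V i) ≤ inner ℝ (V (i + 1)) (nrm V i)} := by
    apply convex_halfSpace_le
    exact ⟨fun x y => inner_add_left x y _, fun c x => real_inner_smul_left x _ c⟩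
  refine convexHull_min ?_ hconv hy
  rintro _ ⟨j, rfl⟩
  show inner ℝ (V j) (nrm V i) ≤ inner ℝ (V (i + 1)) (nrm V i)
  have : j = i ∨ j = i + 1 ∨ j = i + 2 := by
    fin_cases i <;> fin_cases j <;> decide
  rcases this with rfl | rfl | rfl
  · exact h2
  · exact le_rfl
  · exact h1.le

theorem eq_of_mem_segment (i : Fin 3) {y : E2} (hy : y ∈ segment ℝ (V (i + 1)) (V (i + 2))) :
    inner ℝ y (nrm V i) = inner ℝ (V (i + 1)) (nrm V i) := by
  obtain ⟨h1, -⟩ := inner_vertex hV i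
  obtain ⟨a, b, ha, hb, hab, rfl⟩ := hy
  rw [inner_add_left, real_inner_smul_left, real_inner_smul_left, h1, ← add_mul, hab, one_mul]

/-- The functional equation for the support function of a rotor. -/
theorem rotor_eq {K : Set E3} (hK : IsCompact K) (hne : K.Nonempty) (hrot : IsRotor V K)
    (ρ : E3 ≃ₗᵢ[ℝ] E3) (hρ : LinearMap.det (ρ.toLinearEquiv : E3 →ₗ[ℝ] E3) = 1) :
    H K (ρ.symm (lift (nrm V 0))) + H K (ρ.symm (lift (nrm V 1))) + H K (ρ.symm (lift (nrm V 2)))
      = inner ℝ (V (0 + 1)) (nrm V 0) + inner ℝ (V (1 + 1)) (nrm V 1)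
        + inner ℝ (V (2 + 1)) (nrm V 2) := by
  obtain ⟨t, ht1, ht2⟩ := hrot ρ hρ
  have key : ∀ i, H K (ρ.symm (lift (nrm V i)))
      = inner ℝ (V (i + 1)) (nrm V i) - inner ℝ t (lift (nrm V i)) := by
    intro i
    have hxi : ∀ x, inner ℝ (ρ.symm (lift (nrm V i))) x
        = inner ℝ (proj (ρ x + t)) (nrm V i) - inner ℝ t (lift (nrm V i)) := by
      intro x
      rw [← inner_lift, inner_add_left, add_sub_cancel_right, real_inner_comm]
      rw [← LinearIsometryEquiv.inner_map_map ρ x, LinearIsometryEquiv.apply_symm_apply]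
    apply le_antisymm
    · refine H_le hne _ fun x hx => ?_
      rw [hxi]
      have := le_of_mem_hull hV i (ht1 ⟨x, hx, rfl⟩)
      linarith
    · obtain ⟨_, ⟨x, hx, rfl⟩, hf⟩ := ht2 i
      have h1 := eq_of_mem_segment hV i hf
      have h2 := le_H hK (ρ.symm (lift (nrm V i))) hx
      rw [hxi] at h2
      have h3 : inner ℝ (proj (ρ x + t)) (nrm V i) = inner ℝ (V (i + 1)) (nrm V i) := h1
      linarith
  have hsum : inner ℝ t (lift (nrm V 0)) + inner ℝ t (lift (nrm V 1))
      + inner ℝ t (lift (nrm V 2)) = 0 := by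
    rw [← inner_add_right, ← inner_add_right, nrm_sum, inner_zero_right]
  rw [key 0, key 1, key 2]
  linarith

end

/-- Every convex body (compact convex set with nonempty interior) in Euclidean 3-space that is a
rotor in the infinite prism over an equilateral triangle is a ball. -/
theorem result : ∀ V : Fin 3 → E2, IsEquilateral V → ∀ K : Set E3, IsCompact K → Convex ℝ K →
    (interior K).Nonempty → IsRotor V K → ∃ (c : E3) (r : ℝ), 0 < r ∧ K = closedBall c r := by
  rintro V ⟨l, hl, hV⟩ K hK hconv hint hrot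
  have hne : K.Nonempty := hint.mono interior_subset
  set R : ℝ := l / Real.sqrt 3 with hR
  have h3 : (0 : ℝ) < Real.sqrt 3 := Real.sqrt_pos.2 (by norm_num)
  have hR0 : 0 < R := div_pos hl h3
  have hnR : ∀ i, ‖lift (nrm V i)‖ = R := by
    intro i
    rw [norm_lift]
    have h1 := norm_nrm hV i
    have h2 : R ^ 2 = l ^ 2 / 3 := by
      rw [hR, div_pow, Real.sq_sqrt (by norm_num)]
    rw [← h2] at h1
    exact (sq_eq_sq₀ (norm_nonneg _) hR0.le).1 h1
  set D : ℝ := inner ℝ (V (0 + 1)) (nrm V 0) + inner ℝ (V (1 + 1)) (nrm V 1)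
        + inner ℝ (V (2 + 1)) (nrm V 2) with hD
  -- the functional equation on all triples
  have hfe : ∀ u v w : E3, ‖u‖ = 1 → ‖v‖ = 1 → ‖w‖ = 1 → u + v + w = 0 →
      H K u + H K v + H K w = D / R := by
    intro u v w hu hv hw h
    have hn : ∀ i, ‖R⁻¹ • lift (nrm V i)‖ = 1 := fun i => by
      rw [norm_smul, hnR, Real.norm_of_nonneg (inv_nonneg.2 hR0.le), inv_mul_cancel₀ hR0.ne']
    have hs : R⁻¹ • lift (nrm V 0) + R⁻¹ • lift (nrm V 1) + R⁻¹ • lift (nrm V 2) = 0 := by
      rw [← smul_add, ← smul_add, nrm_sum, smul_zero]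
    obtain ⟨ρ, hdet, e1, e2, e3⟩ := exists_rotation_triple hu hv hw h (hn 0) (hn 1) (hn 2) hs
    have h1 := rotor_eq hV hK hne hrot ρ hdet
    have key : ∀ (x : E3) (i : Fin 3), ρ x = R⁻¹ • lift (nrm V i) →
        H K (ρ.symm (lift (nrm V i))) = R * H K x := by
      intro x i hx
      have h2 : ρ.symm (lift (nrm V i)) = R • x := by
        rw [LinearIsometryEquiv.symm_apply_eq, map_smul, hx, smul_smul, mul_inv_cancel₀ hR0.ne',
          one_smul]
      rw [h2, H_smul hK hne _ _ hR0.le]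
    rw [key u 0 e1, key v 1 e2, key w 2 e3, ← hD] at h1
    rw [eq_div_iff hR0.ne']
    linarith
  set r : ℝ := D / R / 3 with hr
  set g : E3 → ℝ := fun x => H K x - r * ‖x‖ with hg
  have hgc : Continuous g := (H_continuous hK hne).sub (continuous_const.mul continuous_norm)
  have hgh : ∀ (s : ℝ) (x : E3), 0 ≤ s → g (s • x) = s * g x := by
    intro s x hs
    simp only [hg]
    rw [H_smul hK hne _ _ hs, norm_smul, Real.norm_of_nonneg hs]
    ring
  have hgT : Pool.Agent.X166.Rotor.Triple g := by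
    intro u v w hu hv hw h
    have h1 := hfe u v w hu hv hw h
    simp only [hg, hu, hv, hw]
    rw [hr]
    linarith
  obtain ⟨w, hw⟩ := Pool.Agent.X166.Rotor.linear_of_triple hgc hgh hgT
  have hH : ∀ p : E3, ‖p‖ = 1 → H K p = r + inner ℝ p w := by
    intro p hp
    have := hw p hp
    simp only [hg, hp] at this
    linarith
  -- `K` lies in the ball
  have hsub : ∀ x ∈ K, x ≠ w → ‖x - w‖ ≤ r := by
    intro x hx hxw
    have hn : 0 < ‖x - w‖ := norm_pos_iff.2 (sub_ne_zero.2 hxw)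
    have hp : ‖(‖x - w‖)⁻¹ • (x - w)‖ = 1 := by
      rw [norm_smul, norm_inv, norm_norm, inv_mul_cancel₀ hn.ne']
    have h1 := le_H hK ((‖x - w‖)⁻¹ • (x - w)) hx
    rw [hH _ hp] at h1
    have h2 : inner ℝ ((‖x - w‖)⁻¹ • (x - w)) (x - w) = ‖x - w‖ := by
      rw [real_inner_smul_left, real_inner_self_eq_norm_sq]
      field_simp
    rw [inner_sub_right] at h2
    linarith
  -- the radius is positive
  have hrpos : 0 < r := by
    obtain ⟨x, hx, hxw⟩ : ∃ x ∈ K, x ≠ w := by
      by_contra hcon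
      push Not at hcon
      have h1 : interior K ⊆ interior {w} := interior_mono fun x hx => hcon x hx
      rw [interior_singleton] at h1
      obtain ⟨y, hy⟩ := hint
      exact h1 hy
    have hn : 0 < ‖x - w‖ := norm_pos_iff.2 (sub_ne_zero.2 hxw)
    exact hn.trans_le (hsub x hx hxw)
  refine ⟨w, r, hrpos, Set.Subset.antisymm ?_ ?_⟩
  · intro x hx
    rw [mem_closedBall, dist_eq_norm]
    by_cases hxw : x = w
    · rw [hxw, sub_self, norm_zero]; exact hrpos.le
    · exact hsub x hx hxw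
  · intro y hy
    rw [mem_closedBall, dist_eq_norm] at hy
    by_contra hyK
    obtain ⟨f, u, hf1, hf2⟩ := geometric_hahn_banach_closed_point hconv hK.isClosed hyK
    set z := (InnerProductSpace.toDual ℝ E3).symm f with hz
    have hfz : ∀ x, f x = inner ℝ z x := fun x => by
      rw [hz, InnerProductSpace.toDual_symm_apply]
    have hz0 : z ≠ 0 := by
      intro h0
      obtain ⟨x, hx⟩ := hne
      have h1 := hf1 x hx
      rw [hfz, h0, inner_zero_left] at h1
      rw [hfz, h0, inner_zero_left] at hf2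
      linarith
    have hzn : 0 < ‖z‖ := norm_pos_iff.2 hz0
    have hp : ‖(‖z‖)⁻¹ • z‖ = 1 := by
      rw [norm_smul, norm_inv, norm_norm, inv_mul_cancel₀ hzn.ne']
    have h1 : H K ((‖z‖)⁻¹ • z) ≤ (‖z‖)⁻¹ * u := by
      refine H_le hne _ fun x hx => ?_
      rw [real_inner_smul_left, ← hfz]
      exact mul_le_mul_of_nonneg_left (hf1 x hx).le (inv_nonneg.2 hzn.le)
    have h2 : (‖z‖)⁻¹ * u < inner ℝ ((‖z‖)⁻¹ • z) y := by
      rw [real_inner_smul_left, ← hfz]
      exact mul_lt_mul_of_pos_left hf2 (inv_pos.2 hzn)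
    rw [hH _ hp] at h1
    have h4 : inner ℝ ((‖z‖)⁻¹ • z) (y - w) ≤ r := by
      refine (real_inner_le_norm _ _).trans ?_
      rw [hp, one_mul]
      exact hy
    rw [inner_sub_right] at h4
    linarith

end Pool.Agent.Results.MP_c2e62a_gt.OnlyBalls
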